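import Pool.Agent.P.MP_fb2f7f_lc.NotDFI

/-! Every infinite set of the model is strongly filterbase infinite. -/

namespace Pool.Agent.P.MP_fb2f7f_lc

open Pool.Agent.Lib.PermModel Pool.Agent.Lib.PermModel.NF Pool.Agent.Lib.PermModel.VA Filter

theorem smul_mem_ex {X : FF.N} {π : Equiv.Perm Nd} (hπ : π ∈ FF.G) (hX : π • X.1 = X.1)
    {y : FF.N} (hy : y ∈ ex X) : sm hπ y ∈ ex X := by
  have := smul_mem_of_mem π (show Mem y.1 X.1 from hy)
  rwa [hX] at this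

theorem swap_mem_G (a b : Nd) : Equiv.swap a b ∈ FF.G :=
  (swap_mem_Hn (n := 0) ∅ (tr_eq_tr.mpr ⟨by simp, by simp [Ag]⟩)).1

theorem caseB {X : FF.N} {n₀ : ℕ} {T₀ : Set K} (hT₀ : T₀.Finite)
    (hX : ∀ g ∈ Hn n₀ T₀, g • X.1 = X.1) {x : FF.N} (hx : x ∈ ex X) {a b : Nd}
    (hab : cls n₀ a = cls n₀ b) (hmove : Equiv.swap a b • x.1 ≠ x.1) : FF.str.SFI X := by
  obtain ⟨_, ⟨n₁, T₁, hT₁, rfl⟩, hfix⟩ := x.2.sym
  have hne : a ≠ b := by
    rintro rfl
    rw [Equiv.swap_self] at hmove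
    exact hmove (one_smul _ _)
  have hla : n₀ ≤ a.len := by
    by_contra h
    exact hne (eq_of_cls_eq hab.symm (not_le.mp h)).symm
  set k := a.seq with hk
  have hca : cls n₀ a = tr k n₀ := cls_eq_tr.mpr ⟨hla, Ag.refl _ _⟩
  obtain ⟨m, hm0, hm1, hma, hmb⟩ : ∃ m, n₀ ≤ m ∧ n₁ ≤ m ∧ a.len < m ∧ b.len < m :=
    ⟨n₀ + n₁ + a.len + b.len + 1, by omega, by omega, by omega, by omega⟩
  have hcone : ∀ c c', cls m c = tr k m → cls m c' = tr k m → Equiv.swap c c' • x.1 = x.1 :=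
    fun c c' h h' => hfix _ (swap_mem_Hn _ (cls_congr hm1 (h.trans h'.symm)))
  have hc0 : cls m (tr k m) = tr k m := by rw [cls_tr, min_self]
  obtain ⟨p, hp1, hp2, hp3⟩ : ∃ p : Nd, p.len < m ∧ cls n₀ p = tr k n₀ ∧
      Equiv.swap p (tr k m) • x.1 ≠ x.1 := by
    by_contra hn
    push Not at hn
    apply hmove
    have h1 : b ≠ tr k m := by rintro rfl; simp at hmb
    rw [← Equiv.swap_mul_swap_mul_swap h1 hne.symm, mul_smul, mul_smul, Equiv.swap_comm (tr k m),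
      hn a hma hca, hn b hmb (hab ▸ hca), hn a hma hca]
  have hpne : ∀ c, cls m c = tr k m → p ≠ c := by
    rintro c hc rfl
    have := (cls_eq_tr.mp hc).1
    omega
  have hmv : ∀ c, cls m c = tr k m → Equiv.swap p c • x.1 ≠ x.1 := by
    intro c hc h
    apply hp3
    rw [Equiv.swap_comm, ← Equiv.swap_mul_swap_mul_swap (hpne c hc) (hpne _ hc0), mul_smul,
      mul_smul, hcone _ _ hc hc0, h, hcone _ _ hc hc0]
  let y : Nd → FF.N := fun c => sm (swap_mem_G p c) x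
  have hyinj : ∀ c c', cls m c = tr k m → cls m c' = tr k m → y c = y c' → c = c' := by
    intro c c' hc hc' h
    by_contra hcc
    have h1 : Equiv.swap p c • x.1 = Equiv.swap p c' • x.1 := congrArg Subtype.val h
    have h2 := congrArg (· • x.1) (Equiv.mul_swap_eq_swap_mul (Equiv.swap p c) c c')
    simp only [mul_smul] at h2
    rw [hcone c c' hc hc', Equiv.swap_apply_right,
      Equiv.swap_apply_of_ne_of_ne (hpne c' hc').symm (Ne.symm hcc)] at h2
    apply hmv c hc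
    rw [h2, h1, ← mul_smul, Equiv.swap_mul_self, one_smul]
  set T := insert k (T₀ ∪ T₁) with hTdef
  have hT : T.Finite := (hT₀.union hT₁).insert k
  have hle0 : ∀ {n}, m ≤ n → Hn n T ≤ Hn n₀ T₀ := fun h =>
    Hn_mono (hm0.trans h) fun q hq => Or.inr (Or.inl hq)
  have hle1 : ∀ {n}, m ≤ n → Hn n T ≤ Hn n₁ T₁ := fun h =>
    Hn_mono (hm1.trans h) fun q hq => Or.inr (Or.inr hq)
  have hy : ∀ {n}, m ≤ n → ∀ π (hπ : π ∈ Hn n T) c, sm (F := FF) hπ.1 (y c) = y (π c) := by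
    intro n hn π hπ c
    apply Subtype.ext
    change π • Equiv.swap p c • x.1 = Equiv.swap p (π c) • x.1
    rw [← mul_smul, Equiv.mul_swap_eq_swap_mul, mul_smul, hfix π (hle1 hn hπ),
      Hn_fix hπ (lt_of_lt_of_le hp1 hn)]
  let u : ℕ → K := fun i => Function.update k (m + i) (!k (m + i))
  let Cn : ℕ → Set Nd := fun i => {c | cls (m + i + 1) c = tr (u i) (m + i + 1)}
  have hCn : ∀ i c, c ∈ Cn i ↔ m + i + 1 ≤ c.len ∧ Ag (m + i) c.seq k ∧
      ¬ Ag (m + i + 1) c.seq k := by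
    intro i c
    refine cls_eq_tr.trans (and_congr_right fun _ => ⟨fun h => ⟨fun j hj => ?_, fun h' => ?_⟩,
      fun h j hj => ?_⟩)
    · rw [h j (by omega)]; exact Function.update_of_ne hj.ne _ _
    · have h1 := h (m + i) (by omega)
      rw [h' (m + i) (by omega)] at h1
      simp [u] at h1
    · rcases Nat.lt_succ_iff_lt_or_eq.mp hj with h1 | rfl
      · rw [h.1 j h1]; exact (Function.update_of_ne h1.ne _ _).symm
      · simp only [u, Function.update_self]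
        rw [Bool.eq_not_iff]
        intro h2
        refine h.2 fun j hj => ?_
        rcases Nat.lt_succ_iff_lt_or_eq.mp hj with h1 | rfl
        · exact h.1 j h1
        · exact h2
  have hCm : ∀ i c, c ∈ Cn i → cls m c = tr k m := fun i c hc =>
    cls_eq_tr.mpr ⟨by have := ((hCn i c).mp hc).1; omega, ((hCn i c).mp hc).2.1.mono (by omega)⟩
  refine sfi_of_seq X (Hn_mem m hT) (fun g hg => hX g (hle0 le_rfl hg)) (fun i => y '' Cn i)
    ?_ ?_ ?_ ?_ ?_
  · rintro i _ ⟨c, hc, rfl⟩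
    refine smul_mem_ex _ (hX _ (swap_mem_Hn _ ?_)) hx
    rw [hp2, cls_congr hm0 ((hCm i c hc).trans hc0.symm), cls_tr, min_eq_left hm0]
  · intro i
    refine exists_setOf _ (small_of_subset (S := Set.range fun c => (y c).1) inferInstance
      (by rintro _ ⟨c, -, rfl⟩; exact ⟨c, rfl⟩)) (Hn_mem (m + i + 1) hT) ?_
    rintro g hg _ ⟨c, hc, rfl⟩
    exact ⟨g c, (hg.2.1 c).trans hc, (hy (by omega) g hg c).symm⟩
  · intro i
    refine Set.Infinite.image (fun c hc c' hc' => hyinj c c' (hCm i c hc) (hCm i c' hc')) ?_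
    refine Set.infinite_of_injective_forall_mem (f := fun t => tr (u i) (m + i + 1 + t))
      (fun t t' h => by have := tr_injective _ h; omega) fun t => ?_
    change cls _ _ = _
    rw [cls_tr, min_eq_left (by omega)]
  · intro i j hij
    refine Set.finite_empty.subset ?_
    rintro _ ⟨⟨c, hc, rfl⟩, c', hc', e⟩
    have := hyinj c' c (hCm j c' hc') (hCm i c hc) e
    subst this
    rw [hCn] at hc hc'
    rcases lt_or_gt_of_ne hij with h | h
    · exact hc.2.2 (hc'.2.1.mono (by omega))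
    · exact hc'.2.2 (hc.2.1.mono (by omega))
  · intro i g hg
    obtain ⟨β, hβ⟩ := hg.1
    refine (hβ.image y).subset ?_
    rintro _ ⟨⟨c, hc, rfl⟩, h⟩
    refine ⟨c, fun e => h ⟨g c, ?_, (hy le_rfl g hg c).symm⟩, rfl⟩
    have hk' : β.1 k = k := hβ.fix hg (Set.mem_insert _ _)
    rw [hCn] at hc ⊢
    rw [e, hat_apply]
    have h1 := ag_seq_tr (β.1 c.seq) c.len
    refine ⟨hc.1, (h1.mono (by omega)).trans ?_, fun h2 => hc.2.2 ?_⟩
    · rw [← hk']; exact (β.2 _ _ _).mpr hc.2.1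
    · refine (β.2 _ _ _).mp ?_
      rw [hk']; exact (h1.mono hc.1).symm.trans h2

/-- The ends near which `y` is moved by the isometries in the basic subgroup. -/
def Ends (n₀ : ℕ) (T₀ : Set K) (y : VA Nd) : Set K :=
  {k | ∀ m, ∃ β : Iso, hat β ∈ Hn n₀ T₀ ∧ (∀ q, ¬ Ag m q k → β.1 q = q) ∧ hat β • y ≠ y}

theorem Ends_subset {n₀ n₁ : ℕ} {T₀ T₁ : Set K} (hT₁ : T₁.Finite) {y : VA Nd}
    (hy : ∀ g ∈ Hn n₁ T₁, g • y = y) : Ends n₀ T₀ y ⊆ T₁ \ T₀ := by
  intro k hk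
  by_contra hn
  obtain ⟨m, h1, h2⟩ := ((exists_sep k hT₁).and (eventually_ge_atTop n₁)).exists
  obtain ⟨β, h3, h4, h5⟩ := hk m
  refine h5 (hy _ (hat_mem_Hn (fun q => (ag_of_supp h4 q).mono h2) fun q hq => ?_))
  by_cases hqk : q = k
  · subst hqk
    exact (near_hat β).fix h3 (by by_contra h6; exact hn ⟨hq, h6⟩)
  · exact h4 q (h1 q hq hqk)

theorem Ends_smul {n₀ : ℕ} {T₀ : Set K} {y : VA Nd} {β : Iso} (hβ : hat β ∈ Hn n₀ T₀) {k : K}
    (hk : k ∈ Ends n₀ T₀ y) : β.1 k ∈ Ends n₀ T₀ (hat β • y) := by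
  intro m
  obtain ⟨γ, h1, h2, h3⟩ := hk m
  refine ⟨β * γ * β⁻¹, ?_, fun q hq => ?_, fun h => h3 ?_⟩
  · rw [hat_mul, hat_mul, hat_inv]
    exact Subgroup.mul_mem _ (Subgroup.mul_mem _ hβ h1) (Subgroup.inv_mem _ hβ)
  · have : ¬ Ag m ((β⁻¹).1 q) k := fun h => hq (by simpa using (β.2 m _ _).mpr h)
    change β.1 (γ.1 ((β⁻¹).1 q)) = q
    rw [h2 _ this]; simp
  · rw [hat_mul, hat_mul, hat_inv, mul_smul, mul_smul, inv_smul_smul] at h
    exact MulAction.injective _ h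

theorem level_fix {n₀ n₁ : ℕ} {T₀ T₁ : Set K} (hT₁ : T₁.Finite) {y : VA Nd}
    (hy : ∀ g ∈ Hn n₁ T₁, g • y = y) (h : Ends n₀ T₀ y = ∅) :
    ∃ m, ∀ β : Iso, hat β ∈ Hn n₀ T₀ → (∀ q, Ag m (β.1 q) q) → hat β • y = y := by
  have h1 : ∀ k, ∃ m, ∀ β : Iso, hat β ∈ Hn n₀ T₀ → (∀ q, ¬ Ag m q k → β.1 q = q) →
      hat β • y = y := by
    intro k
    have : k ∉ Ends n₀ T₀ y := by rw [h]; exact id
    simp only [Ends, Set.mem_ofPred_eq, not_forall, not_exists, not_and, not_not] at this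
    exact this
  choose μ hμ using h1
  obtain ⟨b, hb⟩ := (hT₁.image μ).bddAbove
  refine ⟨max b n₁, ?_⟩
  set m := max b n₁
  have key : ∀ S : Set K, S.Finite → S ⊆ T₁ → ∀ β : Iso, hat β ∈ Hn n₀ T₀ →
      (∀ q, Ag m (β.1 q) q) → (∀ k ∈ T₁, k ∉ S → β.1 k = k) → hat β • y = y := by
    intro S hS
    induction S, hS using Set.Finite.induction_on with
    | empty =>
      intro _ β _ h2 h3
      exact hy _ (hat_mem_Hn (fun q => (h2 q).mono (le_max_right _ _)) fun k hk => h3 k hk id)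
    | @insert k S _ _ ih =>
      intro hsub β h1 h2 h3
      obtain ⟨γ, g1, g2⟩ := exists_restr β h2 k
      have hor : ∀ q, γ.1 q = β.1 q ∨ γ.1 q = q := fun q => by
        by_cases hq : Ag m q k
        · exact Or.inl (g1 q hq)
        · exact Or.inr (g2 q hq)
      have hγ : hat γ ∈ Hn n₀ T₀ := by
        refine hat_mem_Hn (fun q => ?_) fun q hq => ?_
        · rcases hor q with e | e <;> rw [e]
          exacts [(near_hat β).ag h1 q, Ag.refl _ _]
        · rcases hor q with e | e <;> rw [e]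
          exact (near_hat β).fix h1 hq
      have hγy : hat γ • y = y := hμ k γ hγ fun q hq => g2 q fun h' => hq
        (h'.mono ((hb ⟨k, hsub (Set.mem_insert _ _), rfl⟩).trans (le_max_left _ _)))
      have h4 := ih (fun q hq => hsub (Set.mem_insert_of_mem _ hq)) (γ⁻¹ * β)
        (by rw [hat_mul, hat_inv]; exact Subgroup.mul_mem _ (Subgroup.inv_mem _ hγ) h1)
        (fun q => (inv_ag (ag_of_supp g2) _).trans (h2 q)) (fun q hq hqS => by
          change γ.1⁻¹ (β.1 q) = q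
          rw [Equiv.Perm.inv_eq_iff_eq]
          by_cases hqk : q = k
          · rw [hqk, g1 k (Ag.refl _ _)]
          · have := h3 q hq (by simp [hqk, hqS])
            rcases hor q with e | e
            · exact e.symm
            · rw [e, this])
      rw [hat_mul, hat_inv, mul_smul, inv_smul_eq_iff, hγy] at h4
      exact h4
  exact fun β h1 h2 => key T₁ hT₁ subset_rfl β h1 h2 fun k hk hk' => (hk' hk).elim

theorem finite_orbit {n₀ m : ℕ} {T₀ : Set K} {y : VA Nd}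
    (h : ∀ β : Iso, hat β ∈ Hn n₀ T₀ → (∀ q, Ag m (β.1 q) q) → hat β • y = y) :
    {z | ∃ β : Iso, hat β ∈ Hn n₀ T₀ ∧ z = hat β • y}.Finite := by
  let ext' : (Fin m → Bool) → K := fun s i => if h : i < m then s ⟨i, h⟩ else false
  let code : Iso → (Fin m → Bool) → Fin m → Bool := fun β s i => β.1 (ext' s) i
  have hc : ∀ β β' : Iso, hat β ∈ Hn n₀ T₀ → hat β' ∈ Hn n₀ T₀ → code β = code β' →
      hat β • y = hat β' • y := by
    intro β β' h1 h2 e
    have := h (β'⁻¹ * β)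
      (by rw [hat_mul, hat_inv]; exact Subgroup.mul_mem _ (Subgroup.inv_mem _ h2) h1) fun q => by
        refine (β'.2 _ _ _).mp ?_
        have h3 : Ag m q (ext' fun i => q i) := fun i hi => by simp [ext', hi]
        have h4 : Ag m (β.1 (ext' fun i => q i)) (β'.1 (ext' fun i => q i)) := fun i hi =>
          congrFun (congrFun e fun i => q i) ⟨i, hi⟩
        simpa using ((β.2 _ _ _).mpr h3).trans (h4.trans ((β'.2 _ _ _).mpr h3).symm)
    rwa [hat_mul, hat_inv, mul_smul, inv_smul_eq_iff] at this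
  have : ∀ z : {z | ∃ β : Iso, hat β ∈ Hn n₀ T₀ ∧ z = hat β • y},
      ∃ β : Iso, hat β ∈ Hn n₀ T₀ ∧ z.1 = hat β • y := fun z => z.2
  choose f hf1 hf2 using this
  exact Finite.of_injective (fun z => code (f z)) fun z z' e =>
    Subtype.ext (by rw [hf2, hf2, hc _ _ (hf1 z) (hf1 z') e])

theorem caseC {X : FF.N} {n₀ : ℕ} {T₀ : Set K} (hT₀ : T₀.Finite)
    (hX : ∀ g ∈ Hn n₀ T₀, g • X.1 = X.1) (hinf : (ex X).Infinite)
    (hC : ∀ x ∈ ex X, ∀ a b, cls n₀ a = cls n₀ b → Equiv.swap a b • x.1 = x.1) :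
    FF.str.SFI X := by
  have hact : ∀ π ∈ Hn n₀ T₀, ∀ β, Near π β → ∀ x ∈ ex X, π • x.1 = hat β • x.1 := by
    intro π hπ β hβ x hx
    have h1 := hβ.hat_mem hπ
    have h2 := (Hn n₀ T₀).mul_mem ((Hn n₀ T₀).inv_mem h1) hπ
    have h3 := fix_of_swaps (hC x hx) _ (hβ.subset fun s hs e => hs (by
      rw [Equiv.Perm.mul_apply, e]; simp)) h2.2.1
    rwa [mul_smul, inv_smul_eq_iff] at h3
  have hfinE : ∀ y : FF.N, (Ends n₀ T₀ y.1).Finite ∧ ∀ k ∈ Ends n₀ T₀ y.1, k ∉ T₀ := by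
    intro y
    obtain ⟨_, ⟨n₁, T₁, hT₁, rfl⟩, hfix⟩ := y.2.sym
    exact ⟨hT₁.subset fun k hk => (Ends_subset hT₁ hfix hk).1,
      fun k hk => (Ends_subset hT₁ hfix hk).2⟩
  by_cases hE : ∃ x ∈ ex X, (Ends n₀ T₀ x.1).Nonempty
  · obtain ⟨x, hx, k, hk⟩ := hE
    have hle : Hn n₀ (insert k T₀) ≤ Hn n₀ T₀ := Hn_mono le_rfl (Set.subset_insert _ _)
    let φ : VA Nd → Set ℕ := fun y => {j | ∃ q ∈ Ends n₀ T₀ y, Ag j q k ∧ ¬ Ag (j + 1) q k}
    have hφ : ∀ β : Iso, hat β ∈ Hn n₀ (insert k T₀) → ∀ y, φ y ⊆ φ (hat β • y) := by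
      rintro β hβ y j ⟨q, h1, h2, h3⟩
      have e : β.1 k = k := (near_hat β).fix hβ (Set.mem_insert _ _)
      refine ⟨β.1 q, Ends_smul (hle hβ) h1, ?_, fun h => h3 ((β.2 _ _ _).mp ?_)⟩
      · rw [← e]; exact (β.2 _ _ _).mpr h2
      · rwa [e]
    refine sfi_of_invariant X (Hn_mem n₀ (hT₀.insert k)) (fun g hg => hX g (hle hg))
      (fun y => φ y.1) (fun g hg y hy => ?_) fun hfin => ?_
    · obtain ⟨β, hβ⟩ := hg.1
      change φ (g • y.1) = φ y.1
      rw [hact g (hle hg) β hβ y hy]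
      refine Set.Subset.antisymm ?_ (hφ β (hβ.hat_mem hg) _)
      have := hφ β⁻¹ (by rw [hat_inv]; exact Subgroup.inv_mem _ (hβ.hat_mem hg)) (hat β • y.1)
      rwa [hat_inv, inv_smul_smul] at this
    · have h1 : (⋃₀ ((fun y : FF.N => φ y.1) '' ex X)).Finite := by
        refine hfin.sUnion ?_
        rintro _ ⟨y, -, rfl⟩
        refine ((hfinE y).1.biUnion (t := fun q => {j | Ag j q k ∧ ¬ Ag (j + 1) q k})
          fun q _ => Set.Subsingleton.finite fun j hj j' hj' => ?_).subset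
          fun j ⟨q, h1, h2⟩ => Set.mem_biUnion h1 h2
        by_contra hne
        rcases lt_or_gt_of_ne hne with h | h
        · exact hj.2 (hj'.1.mono h)
        · exact hj'.2 (hj.1.mono h)
      have h2 : ∀ᶠ j in atTop, j ∉ ⋃₀ ((fun y : FF.N => φ y.1) '' ex X) := by
        rw [← Nat.cofinite_eq_atTop]; exact h1.compl_mem_cofinite
      obtain ⟨j, h3, h4, h5⟩ := (h2.and ((exists_sep k hT₀).and (eventually_ge_atTop n₀))).exists
      obtain ⟨γ, g1, g2⟩ := exists_restr (m := j) (xorI fun i => decide (i = j))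
        (fun q i hi => by rw [xorI_apply]; simp [hi.ne]) k
      have hγ : hat γ ∈ Hn n₀ T₀ := hat_mem_Hn (fun q => (ag_of_supp g2 q).mono h5)
        fun q hq => g2 q (h4 q hq (by rintro rfl; exact (hfinE x).2 q hk hq))
      refine h3 ⟨_, ⟨sm (F := FF) hγ.1 x, smul_mem_ex _ (hX _ hγ) hx, rfl⟩, γ.1 k,
        Ends_smul hγ hk, ag_of_supp g2 k, fun h => ?_⟩
      have := h j (by omega)
      rw [g1 k (Ag.refl _ _), xorI_apply] at this
      simp at this
  · push Not at hE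
    let φ : VA Nd → Set (VA Nd) := fun y => {z | ∃ β : Iso, hat β ∈ Hn n₀ T₀ ∧ z = hat β • y}
    have hφ : ∀ β : Iso, hat β ∈ Hn n₀ T₀ → ∀ y, φ (hat β • y) ⊆ φ y := by
      rintro β hβ y _ ⟨γ, hγ, rfl⟩
      exact ⟨γ * β, by rw [hat_mul]; exact Subgroup.mul_mem _ hγ hβ, by rw [hat_mul, mul_smul]⟩
    refine sfi_of_invariant X (Hn_mem n₀ hT₀) hX
      (fun y => φ y.1) (fun g hg y hy => ?_) fun hfin => ?_
    · obtain ⟨β, hβ⟩ := hg.1
      change φ (g • y.1) = φ y.1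
      rw [hact g hg β hβ y hy]
      refine Set.Subset.antisymm (hφ β (hβ.hat_mem hg) _) ?_
      have := hφ β⁻¹ (by rw [hat_inv]; exact Subgroup.inv_mem _ (hβ.hat_mem hg)) (hat β • y.1)
      rwa [hat_inv, inv_smul_smul] at this
    · have h1 : (⋃₀ ((fun y : FF.N => φ y.1) '' ex X)).Finite := by
        refine hfin.sUnion ?_
        rintro _ ⟨y, hy, rfl⟩
        obtain ⟨_, ⟨n₁, T₁, hT₁, rfl⟩, hfix⟩ := y.2.sym
        obtain ⟨m, hm⟩ := level_fix hT₁ hfix (hE y hy)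
        exact finite_orbit hm
      refine hinf ((h1.preimage Subtype.val_injective.injOn).subset fun y hy => ?_)
      exact ⟨_, ⟨y, hy, rfl⟩, 1, by rw [hat_one]; exact Subgroup.one_mem _, by
        rw [hat_one, one_smul]⟩

theorem isfbi (X : FF.N) (hinf : ¬ FF.str.IsFin X) : FF.str.SFI X := by
  rw [isFin_iff] at hinf
  obtain ⟨_, ⟨n₀, T₀, hT₀, rfl⟩, hX⟩ := X.2.sym
  by_cases hC : ∀ x ∈ ex X, ∀ a b, cls n₀ a = cls n₀ b → Equiv.swap a b • x.1 = x.1
  · exact caseC hT₀ hX hinf hC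
  · push Not at hC
    obtain ⟨x, hx, a, b, h1, h2⟩ := hC
    exact caseB hT₀ hX hx h1 h2

theorem exists_atoms : ∃ X : FF.N, ¬ FF.str.atm X ∧ ¬ FF.str.IsFin X ∧ ¬ FF.str.DFI X := by
  obtain ⟨d, hd⟩ := FF.isZFA.atoms
  refine ⟨d, hd.1, ?_, not_dfi fun z hz => (hd.2 z).mp hz⟩
  rw [isFin_iff]
  exact Set.infinite_of_injective_forall_mem (f := fun n => atN (tr (fun _ => false) n))
    (fun _ _ h => tr_injective _ (atN_injective h)) fun n =>
      (hd.2 (atN (tr (fun _ => false) n))).mpr ⟨_, rfl⟩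

theorem main : ∃ (M : Type 1) (S : Str M), S.IsZFA ∧
    (∀ X, ¬ S.atm X → ¬ S.IsFin X → S.SFI X) ∧ ¬ ∀ X, ¬ S.atm X → ¬ S.IsFin X → S.DFI X := by
  refine ⟨FF.N, FF.str, FF.isZFA, fun X _ h => isfbi X h, fun h => ?_⟩
  obtain ⟨X, h1, h2, h3⟩ := exists_atoms
  exact h3 (h X h1 h2)

theorem main_set : ∃ (M : Type 1) (S : Str M), S.IsZFA ∧
    ∃ X, ¬ S.atm X ∧ S.SFI X ∧ ¬ S.DFI X := by
  obtain ⟨X, h1, h2, h3⟩ := exists_atoms
  exact ⟨FF.N, FF.str, FF.isZFA, X, h1, isfbi X h2, h3⟩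

end Pool.Agent.P.MP_fb2f7f_lc
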