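import Pool.Agent.P.MP_fb2f7f_lc.Tree

/-! No set of atoms is dyadically filterbase infinite in the model. -/

namespace Pool.Agent.P.MP_fb2f7f_lc

open Pool.Agent.Lib.PermModel Pool.Agent.Lib.PermModel.NF Pool.Agent.Lib.PermModel.VA Filter

/-- Atoms in the model. -/
def atN (a : Nd) : FF.N := ⟨atom a, hs_atom a⟩

theorem atN_injective : Function.Injective atN := fun _ _ h =>
  atom_injective (congrArg Subtype.val h)

/-- The ends that eventually lie in `U`. -/
def En (U : FF.N) : Set K := {k | ∀ᶠ m in atTop, atN (tr k m) ∈ ex U}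

theorem exists_depth (U : FF.N) :
    ∃ d, ∀ a b, cls d a = cls d b → atN a ∈ ex U → atN b ∈ ex U := by
  obtain ⟨_, ⟨d, T, -, rfl⟩, h⟩ := U.2.sym
  refine ⟨d, fun a b hab ha => ?_⟩
  have := smul_mem_of_mem (Equiv.swap a b) (show Mem (atom a) U.1 from ha)
  rw [h _ (swap_mem_Hn T hab)] at this
  change Mem (atom (Equiv.swap a b a)) U.1 at this
  rwa [Equiv.swap_apply_left] at this

theorem mem_En_iff {U : FF.N} {d : ℕ}
    (h : ∀ a b, cls d a = cls d b → atN a ∈ ex U → atN b ∈ ex U) (k : K) :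
    k ∈ En U ↔ atN (tr k d) ∈ ex U := by
  constructor
  · intro hk
    obtain ⟨m, h1, h2⟩ := (Eventually.and hk (eventually_ge_atTop d)).exists
    exact h _ _ (by rw [cls_tr, cls_tr, min_eq_left h2, min_self]) h1
  · intro hk
    filter_upwards [eventually_ge_atTop d] with m h2
    exact h _ _ (by rw [cls_tr, cls_tr, min_eq_left h2, min_self]) hk

theorem En_nonempty {U : FF.N} (h1 : ∀ z ∈ ex U, IsAtom z.1) (h2 : (ex U).Infinite) :
    (En U).Nonempty := by
  obtain ⟨d, hd⟩ := exists_depth U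
  have : ∃ s, atN s ∈ ex U ∧ d ≤ s.len := by
    by_contra hn
    push Not at hn
    refine h2 (((finite_len_lt d).image atN).subset fun z hz => ?_)
    obtain ⟨a, ha⟩ := h1 z hz
    have e : z = atN a := Subtype.ext ha
    subst e
    exact ⟨a, hn a hz, rfl⟩
  obtain ⟨s, hs, hl⟩ := this
  refine ⟨s.seq, (mem_En_iff hd _).mpr (hd s _ ?_ hs)⟩
  rw [cls_tr, min_self, cls, min_eq_left hl]

theorem eventually_notMem (k : K) {S : Set FF.N} (hS : S.Finite) :
    ∀ᶠ m in atTop, atN (tr k m) ∉ S :=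
  eventually_tr_notMem k (D := atN ⁻¹' S) (hS.preimage atN_injective.injOn)

theorem En_mono {U U' : FF.N} (h : (ex U \ ex U').Finite) : En U ⊆ En U' := by
  intro k hk
  filter_upwards [hk, eventually_notMem k h] with m h1 h2
  by_contra h3
  exact h2 ⟨h1, h3⟩

theorem En_disj {U U' : FF.N} (h : (ex U ∩ ex U').Finite) {k : K} (hk : k ∈ En U)
    (hk' : k ∈ En U') : False := by
  obtain ⟨m, h1, h2, h3⟩ := (Eventually.and hk (Eventually.and hk' (eventually_notMem k h))).exists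
  exact h3 ⟨h1, h2⟩

theorem En_sm (β : Iso) (hβ : hat β ∈ FF.G) {U : FF.N} {k : K} (hk : k ∈ En U) :
    β.1 k ∈ En (sm hβ U) := by
  filter_upwards [hk] with m hm
  have := smul_mem_of_mem (hat β) (show Mem (atom (tr k m)) U.1 from hm)
  change Mem (atom (hat β (tr k m))) _ at this
  rwa [hat_tr] at this

theorem exists_family (e : ℕ → K → Set K)
    (h1 : ∀ n k k', (∀ i ≤ n, k i = k' i) → e n k ⊆ e n k') (h2 : ∀ n k, e (n + 1) k ⊆ e n k)
    (h3 : ∀ n k k', (∃ i ≤ n, k i ≠ k' i) → ∀ p, p ∈ e (n + 1) k → p ∈ e n k' → False)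
    (n : ℕ) (k : K) : ∃ (a : ℕ → ℕ) (b : ℕ → K), (∀ j, e (a j) (b j) ⊆ e n k) ∧
      ∀ j j', j < j' → ∀ p, p ∈ e (a j) (b j) → p ∈ e (a j') (b j') → False := by
  have hanti : ∀ k m m', m ≤ m' → e m' k ⊆ e m k := fun k m m' h =>
    antitone_nat_of_succ_le (f := fun m => e m k) (fun m => h2 m k) h
  refine ⟨fun j => n + 2 + j, fun j i => if i ≤ n then k i else decide (i = n + 1 + j),
    fun j => (hanti _ n (n + 2 + j) (by omega)).trans (h1 _ _ _ fun i hi => by simp [hi]), ?_⟩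
  intro j j' hj p hp hp'
  refine h3 (n + 1 + j) _ _ ⟨n + 1 + j, le_rfl, ?_⟩ p (by rwa [show n + 1 + j + 1 = n + 2 + j by omega])
    (hanti _ _ (n + 2 + j') (by omega) hp')
  have e1 : ¬ n + 1 + j ≤ n := by omega
  simp [e1, hj.ne]

theorem not_dfi {X : FF.N} (hX : ∀ z ∈ ex X, IsAtom z.1) : ¬ FF.str.DFI X := by
  intro h
  obtain ⟨H, hH, W, w1, w2, w3, w4, w5⟩ := exists_tree_of_dfi h
  obtain ⟨n₀, T, hT, rfl⟩ := hH
  have fam := exists_family (fun n k => En (W n k)) (fun n k k' h => En_mono (w3 n k k' h))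
    (fun n k => En_mono (w4 n k)) (fun n k k' h p => En_disj (w5 n k k' h))
  have hne : ∀ n k, (En (W n k)).Nonempty := fun n k =>
    En_nonempty (fun z hz => hX z ((w1 n k).2.1 hz)) (w1 n k).2.2
  obtain ⟨n, k, hnk⟩ : ∃ n k, ∀ p ∈ T, p ∉ En (W n k) := by
    by_contra hn
    push Not at hn
    obtain ⟨a, b, -, hd⟩ := fam 0 fun _ => false
    choose p hp1 hp2 using fun j => hn (a j) (b j)
    obtain ⟨j, -, j', -, hlt, e⟩ := Set.infinite_univ.exists_lt_map_eq_of_mapsTo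
      (fun j _ => hp1 j) hT
    exact hd j j' hlt (p j) (hp2 j) (e ▸ hp2 j')
  obtain ⟨a, b, hsub, hd⟩ := fam n k
  obtain ⟨d₀, hd₀⟩ := exists_depth (W n k)
  choose p hp using fun j => hne (a j) (b j)
  set d := max d₀ n₀ with hdd
  obtain ⟨j, -, j', -, hlt, e⟩ := Set.infinite_univ.exists_lt_map_eq_of_mapsTo
    (f := fun j => tr (p j) d) (fun j _ => show tr (p j) d ∈ {s : Nd | s.len < d + 1} by simp)
    (finite_len_lt (d + 1))
  have hag : Ag d (p j) (p j') := (tr_eq_tr.mp e).2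
  obtain ⟨γ, g1, g2⟩ := exists_restr (m := d) (xorI fun i => xor (p j i) (p j' i))
    (fun q i hi => by rw [xorI_apply, hag i hi]; simp) (p j)
  have hγ : hat γ ∈ Hn n₀ T := by
    refine hat_mem_Hn (fun q => (ag_of_supp g2 q).mono (le_max_right _ _)) fun q hq => g2 q ?_
    intro hq'
    apply hnk q hq
    have := (mem_En_iff hd₀ _).mp (hsub j (hp j))
    rw [mem_En_iff hd₀, tr_eq_tr.mpr ⟨rfl, hq'.mono (le_max_left _ _)⟩]
    exact this
  have e2 : γ.1 (p j) = p j' := by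
    rw [g1 _ (Ag.refl _ _)]
    funext i
    rw [xorI_apply]; simp
  have h5 := En_mono (w2 (a j) (b j) _ hγ) (En_sm γ _ (hp j))
  rw [e2] at h5
  exact hd j j' hlt _ h5 (hp j')

end Pool.Agent.P.MP_fb2f7f_lc
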