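import Pool.Agent.Lib.PermModel.Abs

/-! The binary tree, its automorphisms, and the normal filter on finitary perturbations of them. -/

namespace Pool.Agent.P.MP_fb2f7f_lc

open Pool.Agent.Lib.PermModel Filter

/-- Ends of the binary tree. -/
abbrev K : Type := ℕ → Bool

/-- Nodes of the binary tree. -/
def Nd : Type := {p : ℕ × K // ∀ i, p.1 ≤ i → p.2 i = false}

noncomputable instance : DecidableEq Nd := Classical.decEq Nd

/-- Length of a node. -/
def Nd.len (s : Nd) : ℕ := s.1.1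

/-- An end through a node. -/
def Nd.seq (s : Nd) : K := s.1.2

/-- The node of length `n` on the end `k`. -/
def tr (k : K) (n : ℕ) : Nd := ⟨(n, fun i => if i < n then k i else false), fun i hi => by
  have : ¬ i < n := not_lt.mpr hi
  simp [this]⟩

/-- Agreement below `n`. -/
def Ag (n : ℕ) (k k' : K) : Prop := ∀ i < n, k i = k' i

theorem Ag.refl (n : ℕ) (k : K) : Ag n k k := fun _ _ => rfl
theorem Ag.symm {n : ℕ} {k k' : K} (h : Ag n k k') : Ag n k' k := fun i hi => (h i hi).symm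
theorem Ag.trans {n : ℕ} {k k' k'' : K} (h : Ag n k k') (h' : Ag n k' k'') : Ag n k k'' :=
  fun i hi => (h i hi).trans (h' i hi)
theorem Ag.mono {m n : ℕ} {k k' : K} (h : Ag n k k') (hm : m ≤ n) : Ag m k k' :=
  fun i hi => h i (lt_of_lt_of_le hi hm)

@[simp] theorem len_tr (k : K) (n : ℕ) : (tr k n).len = n := rfl

theorem ag_seq_tr (k : K) (n : ℕ) : Ag n (tr k n).seq k := fun i hi => by
  simp [tr, Nd.seq, hi]

theorem tr_seq (s : Nd) : tr s.seq s.len = s := by
  obtain ⟨⟨n, k⟩, h⟩ := s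
  refine Subtype.ext (Prod.ext rfl (funext fun i => ?_))
  by_cases hi : i < n
  · simp [tr, Nd.seq, Nd.len, hi]
  · have : k i = false := h i (not_lt.mp hi)
    simp [tr, Nd.seq, Nd.len, hi, this]

theorem tr_eq_tr {k k' : K} {n n' : ℕ} : tr k n = tr k' n' ↔ n = n' ∧ Ag n k k' := by
  constructor
  · intro h
    have h1 : n = n' := congrArg Nd.len h
    subst h1
    exact ⟨rfl, (ag_seq_tr k n).symm.trans (h ▸ ag_seq_tr k' n)⟩
  · rintro ⟨rfl, h⟩
    refine Subtype.ext (Prod.ext rfl (funext fun i => ?_))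
    by_cases hi : i < n
    · simp [tr, hi, h i hi]
    · simp [tr, hi]

theorem tr_injective (k : K) : Function.Injective (tr k) := fun _ _ h => (tr_eq_tr.mp h).1

theorem finite_len_lt (d : ℕ) : {s : Nd | s.len < d}.Finite := by
  refine Set.Finite.of_finite_image (f := fun s => (s.len, fun i : Fin d => s.seq i))
    (((Set.finite_lt_nat d).prod Set.finite_univ).subset ?_) ?_
  · rintro _ ⟨s, hs, rfl⟩; exact ⟨hs, trivial⟩
  · intro s hs t _ h
    simp only [Prod.mk.injEq] at h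
    rw [← tr_seq s, ← tr_seq t, tr_eq_tr]
    exact ⟨h.1, fun i hi => congrFun h.2 ⟨i, hi.trans hs⟩⟩

theorem eventually_tr_notMem (k : K) {D : Set Nd} (hD : D.Finite) :
    ∀ᶠ m in atTop, tr k m ∉ D := by
  rw [← Nat.cofinite_eq_atTop]
  exact (hD.preimage (tr_injective k).injOn).compl_mem_cofinite

theorem eq_of_eventually_ag {k k' : K} (h : ∀ᶠ m in atTop, Ag m k k') : k = k' := by
  funext i
  obtain ⟨m, h1, h2⟩ := (h.and (eventually_gt_atTop i)).exists
  exact h1 i h2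

theorem exists_sep (k : K) {T : Set K} (hT : T.Finite) :
    ∀ᶠ m in atTop, ∀ k' ∈ T, k' ≠ k → ¬ Ag m k' k := by
  rw [eventually_all_finite hT]
  intro k' _
  by_cases h : k' = k
  · simp [h]
  · obtain ⟨i, hi⟩ := Function.ne_iff.mp h
    filter_upwards [eventually_gt_atTop i] with m hm _ hag using hi (hag i hm)

/-- Isometries of the space of ends. -/
def Iso : Subgroup (Equiv.Perm K) where
  carrier := {β | ∀ n k k', Ag n (β k) (β k') ↔ Ag n k k'}
  mul_mem' := fun {a b} ha hb n k k' => (ha n _ _).trans (hb n k k')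
  one_mem' := fun _ _ _ => Iff.rfl
  inv_mem' := fun {a} ha n k k' => by
    have := ha n (a⁻¹ k) (a⁻¹ k')
    simpa using this.symm

theorem tr_iso (β : Iso) (k : K) (n : ℕ) : tr (β.1 (tr k n).seq) n = tr (β.1 k) n :=
  tr_eq_tr.mpr ⟨rfl, (β.2 n _ _).mpr (ag_seq_tr k n)⟩

/-- The tree automorphism induced by an isometry. -/
def hat (β : Iso) : Equiv.Perm Nd where
  toFun s := tr (β.1 s.seq) s.len
  invFun s := tr ((β⁻¹).1 s.seq) s.len
  left_inv s := by simp only [len_tr]; rw [tr_iso]; simp [tr_seq]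
  right_inv s := by simp only [len_tr]; rw [tr_iso]; simp [tr_seq]

theorem hat_apply (β : Iso) (s : Nd) : hat β s = tr (β.1 s.seq) s.len := rfl

theorem hat_tr (β : Iso) (k : K) (n : ℕ) : hat β (tr k n) = tr (β.1 k) n := tr_iso β k n

theorem hat_mul (β γ : Iso) : hat (β * γ) = hat β * hat γ := by
  ext s
  rw [Equiv.Perm.mul_apply, hat_apply γ, hat_tr]; rfl

theorem hat_one : hat 1 = 1 := by
  ext s; exact tr_seq s

theorem hat_inv (β : Iso) : hat β⁻¹ = (hat β)⁻¹ :=
  eq_inv_of_mul_eq_one_left (by rw [← hat_mul, inv_mul_cancel, hat_one])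

/-- `π` is a finite perturbation of the automorphism induced by `β`. -/
def Near (π : Equiv.Perm Nd) (β : Iso) : Prop := {s | π s ≠ hat β s}.Finite

theorem Near.mul {π ρ : Equiv.Perm Nd} {β γ : Iso} (h : Near π β) (h' : Near ρ γ) :
    Near (π * ρ) (β * γ) := by
  refine (h'.union (h.preimage ρ.injective.injOn)).subset fun s hs => ?_
  by_contra hn
  simp only [Set.mem_union, Set.mem_preimage, Set.mem_ofPred_eq, not_or, not_not] at hn
  apply hs
  rw [hat_mul, Equiv.Perm.mul_apply, Equiv.Perm.mul_apply, hn.2, hn.1]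

theorem Near.inv {π : Equiv.Perm Nd} {β : Iso} (h : Near π β) : Near π⁻¹ β⁻¹ := by
  refine (h.image π).subset fun s hs => ⟨π⁻¹ s, fun e => hs ?_, by simp⟩
  rw [hat_inv, Equiv.Perm.eq_inv_iff_eq, ← e]; simp

theorem near_hat (β : Iso) : Near (hat β) β := by simp [Near]

theorem Near.eventually {π : Equiv.Perm Nd} {β : Iso} (h : Near π β) (k : K) :
    ∀ᶠ m in atTop, π (tr k m) = tr (β.1 k) m := by
  filter_upwards [eventually_tr_notMem k h] with m hm
  rw [← hat_tr]; exact not_not.mp hm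

/-- The group of finite perturbations of tree automorphisms. -/
def GG : Subgroup (Equiv.Perm Nd) where
  carrier := {π | ∃ β, Near π β}
  mul_mem' := fun ⟨_, h⟩ ⟨_, h'⟩ => ⟨_, h.mul h'⟩
  one_mem' := ⟨1, by rw [← hat_one]; exact near_hat 1⟩
  inv_mem' := fun ⟨_, h⟩ => ⟨_, h.inv⟩

/-- Truncation of a node at depth `n`. -/
def cls (n : ℕ) (s : Nd) : Nd := tr s.seq (min n s.len)

theorem cls_tr (n : ℕ) (k : K) (m : ℕ) : cls n (tr k m) = tr k (min n m) :=
  tr_eq_tr.mpr ⟨rfl, (ag_seq_tr k m).mono (min_le_right _ _)⟩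

theorem cls_cls {n m : ℕ} (h : n ≤ m) (s : Nd) : cls n (cls m s) = cls n s := by
  rw [cls, cls, len_tr, ← min_assoc, min_eq_left h]
  exact tr_eq_tr.mpr ⟨rfl, (ag_seq_tr _ _).mono (min_le_min_right _ h)⟩

theorem cls_congr {n m : ℕ} (h : n ≤ m) {s t : Nd} (e : cls m s = cls m t) : cls n s = cls n t := by
  rw [← cls_cls h s, e, cls_cls h]

theorem eq_of_cls_eq {n : ℕ} {s t : Nd} (e : cls n s = cls n t) (h : t.len < n) : s = t := by
  rw [cls, cls, tr_eq_tr] at e
  have h1 : s.len = t.len := by omega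
  rw [← tr_seq s, ← tr_seq t, tr_eq_tr]
  exact ⟨h1, e.2.mono (by omega)⟩

theorem cls_eq_tr {n : ℕ} {s : Nd} {k : K} : cls n s = tr k n ↔ n ≤ s.len ∧ Ag n s.seq k := by
  rw [cls, tr_eq_tr]
  constructor
  · rintro ⟨h1, h2⟩
    rw [h1] at h2
    exact ⟨by omega, h2⟩
  · rintro ⟨h1, h2⟩
    rw [min_eq_left h1]
    exact ⟨rfl, h2⟩

/-- The basic subgroups. -/
def Hn (n : ℕ) (T : Set K) : Subgroup (Equiv.Perm Nd) where
  carrier := {π | π ∈ GG ∧ (∀ s, cls n (π s) = cls n s) ∧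
    ∀ k ∈ T, ∀ᶠ m in atTop, π (tr k m) = tr k m}
  mul_mem' := by
    rintro a b ⟨h1, h2, h3⟩ ⟨h4, h5, h6⟩
    refine ⟨GG.mul_mem h1 h4, fun s => by rw [Equiv.Perm.mul_apply, h2, h5], fun k hk => ?_⟩
    filter_upwards [h3 k hk, h6 k hk] with m e1 e2
    rw [Equiv.Perm.mul_apply, e2, e1]
  one_mem' := ⟨GG.one_mem, fun _ => rfl, fun _ _ => Eventually.of_forall fun _ => rfl⟩
  inv_mem' := by
    rintro a ⟨h1, h2, h3⟩
    refine ⟨GG.inv_mem h1, fun s => by rw [← h2 (a⁻¹ s)]; simp, fun k hk => ?_⟩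
    filter_upwards [h3 k hk] with m e
    rw [Equiv.Perm.inv_eq_iff_eq, e]

theorem Hn_mono {n m : ℕ} {T T' : Set K} (h : n ≤ m) (hT : T ⊆ T') : Hn m T' ≤ Hn n T :=
  fun _ ⟨h1, h2, h3⟩ => ⟨h1, fun s => cls_congr h (h2 s), fun k hk => h3 k (hT hk)⟩

theorem Hn_fix {n : ℕ} {T : Set K} {π : Equiv.Perm Nd} (h : π ∈ Hn n T) {s : Nd}
    (hs : s.len < n) : π s = s := eq_of_cls_eq (h.2.1 s) hs

theorem hat_mem_Hn {n : ℕ} {T : Set K} {β : Iso} (h1 : ∀ k, Ag n (β.1 k) k)
    (h2 : ∀ k ∈ T, β.1 k = k) : hat β ∈ Hn n T := by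
  refine ⟨⟨β, near_hat β⟩, fun s => ?_, fun k hk => Eventually.of_forall fun m => ?_⟩
  · rw [hat_apply, cls_tr, cls]
    exact tr_eq_tr.mpr ⟨rfl, (h1 _).mono (min_le_left _ _)⟩
  · rw [hat_tr, h2 k hk]

theorem Near.ag {n : ℕ} {T : Set K} {π : Equiv.Perm Nd} {β : Iso} (h : Near π β)
    (hπ : π ∈ Hn n T) (k : K) : Ag n (β.1 k) k := by
  obtain ⟨m, h1, h2⟩ := ((h.eventually k).and (eventually_ge_atTop n)).exists
  have := hπ.2.1 (tr k m)
  rw [h1, cls_tr, cls_tr, min_eq_left h2] at this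
  exact (tr_eq_tr.mp this).2

theorem Near.fix {n : ℕ} {T : Set K} {π : Equiv.Perm Nd} {β : Iso} (h : Near π β)
    (hπ : π ∈ Hn n T) {k : K} (hk : k ∈ T) : β.1 k = k := by
  apply eq_of_eventually_ag
  filter_upwards [h.eventually k, hπ.2.2 k hk] with m e1 e2
  exact (tr_eq_tr.mp (e1.symm.trans e2)).2

theorem Near.hat_mem {n : ℕ} {T : Set K} {π : Equiv.Perm Nd} {β : Iso} (h : Near π β)
    (hπ : π ∈ Hn n T) : hat β ∈ Hn n T := hat_mem_Hn (h.ag hπ) fun _ hk => h.fix hπ hk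

theorem swap_mem_Hn {n : ℕ} (T : Set K) {a b : Nd} (h : cls n a = cls n b) :
    Equiv.swap a b ∈ Hn n T := by
  have hfin : {s | Equiv.swap a b s ≠ s}.Finite := by
    refine (Set.toFinite {a, b}).subset fun s hs => ?_
    by_contra hn
    simp only [Set.mem_insert_iff, Set.mem_singleton_iff, not_or] at hn
    exact hs (Equiv.swap_apply_of_ne_of_ne hn.1 hn.2)
  refine ⟨⟨1, by simpa [Near, hat_one] using hfin⟩, fun s => ?_, fun k _ => ?_⟩
  · rw [Equiv.swap_apply_def]
    split_ifs with h1 h2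
    · rw [h1, h]
    · rw [h2, h]
    · rfl
  · filter_upwards [eventually_tr_notMem k hfin] with m hm using not_not.mp hm

/-- The normal filter. -/
def FF : NF Nd where
  G := GG
  B := {H | ∃ n T, T.Finite ∧ H = Hn n T}
  le := by rintro _ ⟨n, T, -, rfl⟩ π h; exact h.1
  ne := ⟨_, 0, ∅, Set.finite_empty, rfl⟩
  inter := by
    rintro _ ⟨n, T, hT, rfl⟩ _ ⟨m, T', hT', rfl⟩
    exact ⟨_, ⟨max n m, T ∪ T', hT.union hT', rfl⟩,
      Hn_mono (le_max_left _ _) Set.subset_union_left,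
      Hn_mono (le_max_right _ _) Set.subset_union_right⟩
  conj := by
    rintro g ⟨β, hβ⟩ _ ⟨n, T, hT, rfl⟩
    obtain ⟨b, hb⟩ := ((hβ.image g).image Nd.len).bddAbove
    set m := max n (b + 1) with hm
    have hD : ∀ s, m ≤ (g s).len → g s = hat β s := by
      intro s hs
      by_contra h
      have := hb ⟨g s, ⟨s, h, rfl⟩, rfl⟩
      omega
    refine ⟨_, ⟨m, β.1 '' T, hT.image _, rfl⟩, fun l hl => ⟨GG.mul_mem (GG.mul_mem
      (GG.inv_mem ⟨β, hβ⟩) hl.1) ⟨β, hβ⟩, fun s => ?_, fun k hk => ?_⟩⟩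
    · simp only [Equiv.Perm.mul_apply]
      by_cases h : (g s).len < m
      · rw [Hn_fix hl h]; simp
      · have h1 : m ≤ (g s).len := not_lt.mp h
        have h2 := hl.2.1 (g s)
        set u := g⁻¹ (l (g s)) with hu
        have h3 : l (g s) = g u := by simp [hu]
        rw [h3] at h2
        have h4 : m ≤ (g u).len := by
          by_contra h5
          have := eq_of_cls_eq h2.symm (not_le.mp h5)
          rw [this] at h1; exact h5 h1
        have h5 := hD s h1
        have h6 := hD u h4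
        rw [h5] at h1
        rw [h6] at h4
        rw [h5, h6, hat_apply, hat_apply, cls_tr, cls_tr, tr_eq_tr] at h2
        refine cls_congr (le_max_left n (b + 1)) ?_
        exact tr_eq_tr.mpr ⟨h2.1, (β.2 _ _ _).mp h2.2⟩
    · filter_upwards [hβ.eventually k, hl.2.2 _ ⟨k, hk, rfl⟩] with j e1 e2
      simp only [Equiv.Perm.mul_apply]
      rw [e1, e2, ← e1]; simp
  atm := fun a => ⟨_, ⟨a.len + 1, ∅, Set.finite_empty, rfl⟩, fun _ h => Hn_fix h (by simp)⟩

theorem Hn_mem (n : ℕ) {T : Set K} (hT : T.Finite) : Hn n T ∈ FF.B := ⟨n, T, hT, rfl⟩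

/-- Translation by `c`. -/
def xorI (c : K) : Iso := ⟨Function.Involutive.toPerm (fun q i => xor (q i) (c i))
  (fun q => by funext i; simp), fun n k k' => forall₂_congr fun i _ => by
    simp [Function.Involutive.toPerm]⟩

theorem xorI_apply (c q : K) (i : ℕ) : (xorI c).1 q i = xor (q i) (c i) := rfl

open Classical in
theorem restr_aux {m : ℕ} (β : Iso) (h : ∀ q, Ag m (β.1 q) q) (p : K) {n : ℕ} {k k' : K}
    (hk : Ag n k k') : Ag n (if Ag m k p then β.1 k else k) (if Ag m k' p then β.1 k' else k') := by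
  by_cases hnm : n ≤ m
  · have e : ∀ q, Ag n (if Ag m q p then β.1 q else q) q := by
      intro q
      split_ifs
      · exact (h q).mono hnm
      · exact Ag.refl _ _
    exact (e k).trans (hk.trans (e k').symm)
  · have h1 : Ag m k k' := hk.mono (by omega)
    by_cases h2 : Ag m k p
    · rw [if_pos h2, if_pos (h1.symm.trans h2)]; exact (β.2 _ _ _).mpr hk
    · rw [if_neg h2, if_neg fun h3 => h2 (h1.trans h3)]; exact hk

theorem inv_ag {m : ℕ} {β : Iso} (h : ∀ q, Ag m (β.1 q) q) (q : K) : Ag m ((β⁻¹).1 q) q := by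
  have := (h ((β⁻¹).1 q)).symm
  simpa using this

open Classical in
theorem exists_restr {m : ℕ} (β : Iso) (h : ∀ q, Ag m (β.1 q) q) (p : K) :
    ∃ γ : Iso, (∀ q, Ag m q p → γ.1 q = β.1 q) ∧ ∀ q, ¬ Ag m q p → γ.1 q = q := by
  have hl : ∀ (β : Iso), (∀ q, Ag m (β.1 q) q) → ∀ q,
      (if Ag m (if Ag m q p then β.1 q else q) p then (β⁻¹).1 (if Ag m q p then β.1 q else q)
        else (if Ag m q p then β.1 q else q)) = q := by
    intro β h q
    by_cases h1 : Ag m q p
    · simp [h1, (h q).trans h1]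
    · simp [h1]
  refine ⟨⟨⟨fun q => if Ag m q p then β.1 q else q, fun q => if Ag m q p then (β⁻¹).1 q else q,
    hl β h, fun q => by simpa using hl β⁻¹ (inv_ag h) q⟩, fun n k k' => ⟨fun h1 => ?_,
    restr_aux β h p⟩⟩, fun q hq => if_pos hq, fun q hq => if_neg hq⟩
  have := restr_aux β⁻¹ (inv_ag h) p h1
  simp only [Equiv.coe_fn_mk] at this
  rwa [hl β h, hl β h] at this

theorem ag_of_supp {m : ℕ} {γ : Iso} {p : K} (h : ∀ q, ¬ Ag m q p → γ.1 q = q) (q : K) :
    Ag m (γ.1 q) q := by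
  by_cases h1 : Ag m q p
  · by_cases h2 : Ag m (γ.1 q) p
    · exact h2.trans h1.symm
    · rw [γ.1.injective (h _ h2)]; exact Ag.refl _ _
  · rw [h q h1]; exact Ag.refl _ _

theorem fix_of_swaps {n : ℕ} {x : VA Nd}
    (h : ∀ a b, cls n a = cls n b → Equiv.swap a b • x = x) (π : Equiv.Perm Nd)
    (hfin : {s | π s ≠ s}.Finite) (hc : ∀ s, cls n (π s) = cls n s) : π • x = x := by
  generalize hN : {s | π s ≠ s}.ncard = N
  induction N using Nat.strong_induction_on generalizing π with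
  | _ N ih =>
  by_cases h1 : ∀ s, π s = s
  · have : π = 1 := Equiv.ext h1
    rw [this, one_smul]
  · push Not at h1
    obtain ⟨a, ha⟩ := h1
    have hss : {s | (Equiv.swap a (π a) * π) s ≠ s} ⊂ {s | π s ≠ s} := by
      refine ⟨fun s hs e => hs ?_, fun hsub => hsub ha (by simp)⟩
      rw [Equiv.Perm.mul_apply, e]
      refine Equiv.swap_apply_of_ne_of_ne ?_ ?_
      · rintro rfl; exact ha e
      · intro e'
        rw [e'] at e
        exact ha (π.injective e)
    have h2 := ih _ (hN ▸ Set.ncard_lt_ncard hss hfin) (Equiv.swap a (π a) * π)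
      (hfin.subset hss.1) (fun s => by
        rw [Equiv.Perm.mul_apply, (swap_mem_Hn ∅ (hc a).symm).2.1, hc]) rfl
    have h3 := h a (π a) (hc a).symm
    rw [mul_smul] at h2
    exact MulAction.injective _ (h2.trans h3.symm)

end Pool.Agent.P.MP_fb2f7f_lc
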